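import Pool.Agent.H13.HP.Defs
import Pool.Agent.H14.HE.NTs

/-!
# PP: extraction of a `p`-th root in characteristic `p`
-/

open Polynomial

namespace Pool.Agent.H13.HP

open Pool.Agent.H62.HE

universe u

lemma sm_pow {k : Type u} [Field k] {Γ₀ : Type u} [LinearOrderedCommGroupWithZero Γ₀]
    {v : Valuation k Γ₀} {t : Γ₀} (ht : 0 < t) {P : k[X]} (hP : Pool.Agent.H14.HE.Sm v t P)
    (n : ℕ) : Pool.Agent.H14.HE.Sm v t (P ^ n) := by
  induction n with
  | zero => rw [pow_zero]; exact Pool.Agent.H14.HE.Sm.one ht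
  | succ n ih => rw [pow_succ]; exact Pool.Agent.H14.HE.Sm.mul ht ih hP

theorem pp (hREL : T_REL.{u}) (hDEG : T_DEG.{u}) (hSML : T_SML.{u}) (hCART : T_CART.{u})
    (hCOF : T_COF.{u}) (hADD : T_ADD.{u}) (hROOT : T_ROOT.{u}) (hNL : T_NL.{u}) : T_PP.{u} := by
  classical
  intro p _ k M _ _ _ _ φ Γ₀ _ v g f hp hg hfm hfs hfd hfi
  set F0 : M[X] := f ^ ((p - 1) / 2) with hF0
  obtain ⟨μ0, hμ0, hadd⟩ := hADD p k M φ Γ₀ v g
    (fun m j => if (j : ℕ) ≤ p * (m : ℕ) + p - 1 then F0.coeff (p * (m : ℕ) + p - 1 - j) else 0)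
  refine ⟨μ0, hμ0, ?_⟩
  intro μ hμ hle hlt j hj U W a b c hU1 hU0 hUi hcop hW hc hab haW
  have h2k : (2 : k) ≠ 0 := by
    intro h
    have h1 : ((2 : ℕ) : k) = 0 := by exact_mod_cast h
    rw [CharP.cast_eq_zero_iff k p] at h1
    exact hp ((Nat.prime_dvd_prime_iff_eq (Fact.out) Nat.prime_two).1 h1)
  have hp0 : 1 ≤ p := (Fact.out : p.Prime).one_lt.le
  have hpj : 1 ≤ p * j := Nat.mul_pos hp0 hj
  have hμpos : (0 : Γ₀) < v μ := by rw [zero_lt_iff]; exact (v.ne_zero_iff).2 hμ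
  have hfi' : ∀ i, v ((f.map φ).coeff i) ≤ 1 := by
    intro i; rw [coeff_map]; exact hfi i
  have hfd' : (f.map φ).natDegree = 2 * g + 1 := by rw [natDegree_map, hfd]
  -- U ^ (p j)
  have hSm : Pool.Agent.H14.HE.Sm v (v μ ^ 2) (U ^ (p * j)) :=
    sm_pow (pow_pos hμpos 2) ⟨hU0, fun i hi => by rw [← pow_mul]; exact hUi i hi⟩ _
  have hU0' : U ≠ 0 := by
    intro h; rw [h, natDegree_zero] at hU1; omega
  obtain ⟨hb0, hab1, hUa, w, hw1, hw2⟩ := hREL p k j (f.map φ) U W a b c hp hj hU1 hc hcop hW hab haW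
  obtain ⟨ha0, hai, hbi⟩ := hNL k Γ₀ v g 0 (f.map φ) (hfm.map φ) hfd' hfi' (Nat.zero_le _) μ hμ
    hlt.le (U ^ (p * j)) a b (C c) hSm.1 (fun i hi => by rw [pow_mul (v μ)]; exact hSm.2 i hi)
    (by rw [mul_zero, pow_zero, one_mul, hab, mul_comm]) (by rw [natDegree_C]) (Or.inr hb0)
  have hva0 : (0 : Γ₀) < v (a.coeff 0) := by rw [zero_lt_iff]; exact (v.ne_zero_iff).2 ha0
  have hai' : ∀ i, 1 ≤ i → v (a.coeff i) ≤ v (a.coeff 0) := by
    intro i hi
    refine (hai i hi).le.trans ?_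
    calc v (a.coeff 0) * v μ ^ (2 * i) ≤ v (a.coeff 0) * 1 := by
          gcongr
          exact pow_le_one₀ zero_le hlt.le
      _ = v (a.coeff 0) := mul_one _
  have hbi' : ∀ i, v (b.coeff i) < v (a.coeff 0) * v μ := by
    intro i
    refine (hbi i).trans_le ?_
    gcongr
    exact pow_le_of_le_one zero_le hlt.le (by omega)
  have hsml := hSML k Γ₀ v (f.map φ) a b w μ hfi' hμ hlt.le ha0 hai' hbi' hw2
  have hdeg := hDEG k g (f.map φ) a b w hg hfd' hb0 h2k hw1 hw2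
  have hU1' : U ∣ U ^ (p * j) := dvd_pow_self U (by omega)
  have hcart := hCART p k (f.map φ) U W a b w hp hU1 hcop (hU1'.trans hW) hUa (hU1'.trans haW) hw1 hw2
  have hcof := hCOF p k g ((f.map φ) ^ ((p - 1) / 2)) w hdeg hcart
  have hw0 : (fun m : Fin g => w.coeff m) = 0 := by
    refine hadd _ ?_ ?_
    · intro m
      have h1 := hcof m
      rw [h1, Finset.sum_range]
      refine Finset.sum_congr rfl fun i _ => ?_
      congr 1
      by_cases h : (i : ℕ) ≤ p * (m : ℕ) + p - 1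
      · rw [if_pos h, if_pos h, hF0, ← Polynomial.map_pow, coeff_map]
      · rw [if_neg h, if_neg h, map_zero]
    · intro m
      exact (hsml m).trans_le hle
  have hw : w = 0 := by
    ext i
    rw [coeff_zero]
    by_cases hi : i < g
    · exact congrFun hw0 ⟨i, hi⟩
    · exact coeff_eq_zero_of_natDegree_lt (by omega)
  rw [hw, zero_mul] at hw1
  rw [hw, mul_zero] at hw2
  have hda : derivative a = 0 := by
    rcases mul_eq_zero.1 hw1 with h | h
    · exfalso
      apply h2k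
      have h3 := congrArg (fun q : k[X] => q.coeff 0) h
      simpa using h3
    · exact h
  exact hROOT p k j (f.map φ) U W a b c hp (hfs.map).squarefree hj hc hW hab haW hda hw2.symm

end Pool.Agent.H13.HP
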