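import Pool.Agent.H62.HE.Defs

/-!
# Larsen's question for hyperelliptic Jacobians in odd characteristic (MP_6b5a9a_nt): targets

Every `T_xxx : Prop` is to be proved as a theorem in its own file.
-/

open Polynomial

namespace Pool.Agent.H13.HP

open Pool.Agent.H62.HE

universe u

/-! ## fields -/

/-- SQK: only boundedly many independent square classes die in a finite extension. -/
def T_SQK : Prop := ∀ (N M : Type u) [Field N] [Field M] [Algebra N M] [FiniteDimensional N M],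
  (2 : N) ≠ 0 → ∃ n : ℕ, ∀ c : Fin (n + 1) → N, (∀ i, c i ≠ 0) →
    (∀ i j, i ≠ j → ¬ IsSquare (c i * c j)) → ∃ i, ¬ IsSquare (algebraMap N M (c i))

/-- SQ: an element of the prime function field which is a square in `L` but not in `M`. -/
def T_SQ : Prop := ∀ (p : ℕ) [Fact p.Prime] (M L : Type u) [Field M] [Field L]
  [Algebra (ZMod p) M], p ≠ 2 → ∀ (ι : M →+* L) (A : Finset M) (t : M),
  Subfield.closure (A : Set M) = ⊤ → Transcendental (ZMod p) t →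
  Finite (Lˣ ⧸ (powMonoidHom 2 : Lˣ →* Lˣ).range) →
  ∃ m n : ℕ, (t ^ m - 1) * (t ^ n - 1) ≠ 0 ∧ IsSquare (ι ((t ^ m - 1) * (t ^ n - 1))) ∧
    ¬ IsSquare ((t ^ m - 1) * (t ^ n - 1))

/-- TAU: an automorphism changing the sign of a square root, and its quadratic character. -/
def T_TAU : Prop := ∀ (M Ω : Type u) [Field M] [Field Ω] [Algebra M Ω] [IsAlgClosed Ω] (g0 : M),
  (2 : M) ≠ 0 → ¬ IsSquare g0 →
  ∃ (τ : Ω ≃ₐ[M] Ω) (ψ : Mˣ →* ℤˣ),
    (∀ (x : Mˣ) (r : Ω), r ^ 2 = algebraMap M Ω x → τ r = (((ψ x : ℤˣ) : ℤ) : Ω) * r) ∧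
    ∀ x : Mˣ, (x : M) = g0 → ψ x = -1

/-- VAL: a valuation with `1 < v t`. -/
def T_VAL : Prop := ∀ (p : ℕ) [Fact p.Prime] (Ω : Type u) [Field Ω] [Algebra (ZMod p) Ω] (t : Ω),
  Transcendental (ZMod p) t → ∃ V : ValuationSubring Ω, 1 < V.valuation t

/-- SEL: choice of the translate. -/
def T_SEL : Prop := ∀ (M Ω : Type u) [Field M] [Field Ω] (G : Type u) [Group G]
  [Finite G] [MulSemiringAction G M] [FaithfulSMul G M] (ι : M →+* Ω) (Γ₀ : Type u)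
  [LinearOrderedCommGroupWithZero Γ₀] (v : Valuation Ω Γ₀) (P : MvPolynomial G Ω) (b t : M),
  (∀ g : G, g • t = t) → 1 < v (ι t) → P ≠ 0 →
  ∃ S : Finset M, ∀ q : M, ∃ s ∈ S, MvPolynomial.eval (fun g : G => ι (g • (q + s))) P ≠ 0 ∧
    ∀ g : G, v (ι b) < v (ι (g • (q + s)))

/-! ## ideals -/

/-- IDL: from ideals to polynomials. -/
def T_IDL : Prop := ∀ (k : Type u) [Field k] (f U w : k[X]) (N : ℕ), (2 : k) ≠ 0 → U ≠ 0 →
  1 ≤ N → U ∣ w ^ 2 - f → IsCoprime U w → (II f U w ^ N).IsPrincipal →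
  ∃ (W a b : k[X]) (c : k), c ≠ 0 ∧ U ∣ W - w ∧ U ^ N ∣ W ^ 2 - f ∧ U ^ N ∣ a + b * W ∧
    a ^ 2 - f * b ^ 2 = C c * U ^ N

/-- LIFT: Hensel lifting of a square root modulo powers of `U`. -/
def T_LIFT : Prop := ∀ (k : Type u) [Field k] (f U w : k[X]) (N : ℕ), (2 : k) ≠ 0 → 1 ≤ N →
  U ∣ w ^ 2 - f → IsCoprime U w → ∃ W : k[X], U ∣ W - w ∧ U ^ N ∣ W ^ 2 - f

open scoped TensorProduct in
/-- CL: the class group relation. -/
def T_CL : Prop := ∀ (K Ω : Type u) [Field K] [Field Ω] (φ : K →+* Ω)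
  (f : K[X]) [IsDomain (HR K f)] [IsDomain (HR Ω (f.map φ))], (2 : K) ≠ 0 →
  FiniteDimensional ℚ (ℚ ⊗[ℤ] Additive (ClassGroup (HR K f))) →
  ∃ T : Finset K, ∀ (u w : K[X]), u ≠ 0 → u ∣ w ^ 2 - f → IsCoprime u w →
    ∀ τ : Ω ≃+* Ω, (∀ t ∈ T, τ (φ t) = φ t) → (∀ i, τ (φ (f.coeff i)) = φ (f.coeff i)) →
    (∀ i, τ (φ (u.coeff i)) = φ (u.coeff i)) → (∀ i, τ (φ (w.coeff i)) = - φ (w.coeff i)) →
    ∃ N : ℕ, 1 ≤ N ∧ (II (f.map φ) (u.map φ) (w.map φ) ^ N).IsPrincipal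

/-! ## extraction of a `p`-th root in characteristic `p` -/

/-- REL: the logarithmic derivative `w` of `a + b y`. -/
def T_REL : Prop := ∀ (p : ℕ) [Fact p.Prime] (k : Type u) [Field k] [CharP k p] (j : ℕ)
  (f U W a b : k[X]) (c : k), p ≠ 2 → 1 ≤ j → 1 ≤ U.natDegree → c ≠ 0 → IsCoprime U W →
  U ^ (p * j) ∣ W ^ 2 - f → a ^ 2 - f * b ^ 2 = C c * U ^ (p * j) → U ^ (p * j) ∣ a + b * W →
  b ≠ 0 ∧ IsCoprime a b ∧ IsCoprime U a ∧ ∃ w : k[X], 2 * derivative a = w * b ∧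
    a * w = derivative f * b + 2 * f * derivative b

/-- DEG: the degree of `w`. -/
def T_DEG : Prop := ∀ (k : Type u) [Field k] (g : ℕ) (f a b w : k[X]), 1 ≤ g →
  f.natDegree = 2 * g + 1 → b ≠ 0 → (2 : k) ≠ 0 → 2 * derivative a = w * b →
  a * w = derivative f * b + 2 * f * derivative b → w.natDegree < g

/-- SML: the coefficients of `w` are small. -/
def T_SML : Prop := ∀ (k : Type u) [Field k] (Γ₀ : Type u) [LinearOrderedCommGroupWithZero Γ₀]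
  (v : Valuation k Γ₀) (f a b w : k[X]) (μ : k), (∀ i, v (f.coeff i) ≤ 1) → μ ≠ 0 → v μ ≤ 1 →
  a.coeff 0 ≠ 0 → (∀ i, 1 ≤ i → v (a.coeff i) ≤ v (a.coeff 0)) →
  (∀ i, v (b.coeff i) < v (a.coeff 0) * v μ) →
  a * w = derivative f * b + 2 * f * derivative b → ∀ i, v (w.coeff i) < v μ

/-- CART: a logarithmic differential is fixed by the Cartier operator. -/
def T_CART : Prop := ∀ (p : ℕ) [Fact p.Prime] (k : Type u) [Field k] [IsAlgClosed k] [CharP k p]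
  (f U W a b w : k[X]), p ≠ 2 → 1 ≤ U.natDegree → IsCoprime U W → U ∣ W ^ 2 - f →
  IsCoprime U a → U ∣ a + b * W → 2 * derivative a = w * b →
  a * w = derivative f * b + 2 * f * derivative b →
  w ^ p + derivative^[p - 1] (w * f ^ ((p - 1) / 2)) = 0

/-- COF: the same in terms of coefficients. -/
def T_COF : Prop := ∀ (p : ℕ) [Fact p.Prime] (k : Type u) [Field k] [CharP k p] (g : ℕ)
  (F w : k[X]), w.natDegree < g → w ^ p + derivative^[p - 1] (w * F) = 0 →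
  ∀ m, (w.coeff m) ^ p =
    ∑ j ∈ Finset.range g, (if j ≤ p * m + p - 1 then F.coeff (p * m + p - 1 - j) else 0) * w.coeff j

/-- ADD: a nonzero solution of a `p`-linear system over `M` is not small. -/
def T_ADD : Prop := ∀ (p : ℕ) [Fact p.Prime] (k M : Type u) [Field k] [Field M] [CharP k p]
  (φ : M →+* k) (Γ₀ : Type u) [LinearOrderedCommGroupWithZero Γ₀] (v : Valuation k Γ₀) (g : ℕ)
  (A : Fin g → Fin g → M), ∃ μ : M, μ ≠ 0 ∧ ∀ w : Fin g → k,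
    (∀ m, w m ^ p = ∑ j, φ (A m j) * w j) → (∀ m, v (w m) < v (φ μ)) → w = 0

/-- ROOT: if `w = 0` then `a + b y` is a `p`-th power. -/
def T_ROOT : Prop := ∀ (p : ℕ) [Fact p.Prime] (k : Type u) [Field k] [IsAlgClosed k] [CharP k p]
  (j : ℕ) (f U W a b : k[X]) (c : k), p ≠ 2 → Squarefree f → 1 ≤ j → c ≠ 0 →
  U ^ (p * j) ∣ W ^ 2 - f → a ^ 2 - f * b ^ 2 = C c * U ^ (p * j) → U ^ (p * j) ∣ a + b * W →
  derivative a = 0 → derivative f * b + 2 * f * derivative b = 0 →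
  ∃ (a' b' : k[X]) (c' : k), c' ≠ 0 ∧ a' ^ 2 - f * b' ^ 2 = C c' * U ^ j ∧ U ^ j ∣ a' + b' * W

/-- PP: extraction of a `p`-th root. -/
def T_PP : Prop := ∀ (p : ℕ) [Fact p.Prime] (k M : Type u) [Field k] [Field M] [IsAlgClosed k]
  [CharP k p] (φ : M →+* k) (Γ₀ : Type u) [LinearOrderedCommGroupWithZero Γ₀]
  (v : Valuation k Γ₀) (g : ℕ) (f : M[X]), p ≠ 2 → 1 ≤ g → f.Monic → f.Separable →
  f.natDegree = 2 * g + 1 → (∀ i, v (φ (f.coeff i)) ≤ 1) →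
  ∃ μ0 : M, μ0 ≠ 0 ∧ ∀ μ : k, μ ≠ 0 → v μ ≤ v (φ μ0) → v μ < 1 → ∀ (j : ℕ), 1 ≤ j →
  ∀ (U W a b : k[X]) (c : k), 1 ≤ U.natDegree → U.coeff 0 = 1 →
  (∀ i, 1 ≤ i → v (U.coeff i) < v μ ^ (2 * i)) → IsCoprime U W →
  U ^ (p * j) ∣ W ^ 2 - f.map φ → c ≠ 0 →
  a ^ 2 - f.map φ * b ^ 2 = C c * U ^ (p * j) → U ^ (p * j) ∣ a + b * W →
  ∃ (a' b' : k[X]) (c' : k), c' ≠ 0 ∧ a' ^ 2 - f.map φ * b' ^ 2 = C c' * U ^ j ∧
    U ^ j ∣ a' + b' * W

/-- NT: no torsion in the kernel of reduction. -/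
def T_NT : Prop := ∀ (p : ℕ) [Fact p.Prime] (k M : Type u) [Field k] [Field M] [IsAlgClosed k]
  [CharP k p] (φ : M →+* k) (Γ₀ : Type u) [LinearOrderedCommGroupWithZero Γ₀]
  (v : Valuation k Γ₀) (g : ℕ) (f : M[X]) (t : M), 1 < v (φ t) → p ≠ 2 → 1 ≤ g → f.Monic →
  f.Separable → f.natDegree = 2 * g + 1 →
  ∃ β : M, ∀ (ι : Type u) [Fintype ι] [Nonempty ι] (x : ι → k), (∀ i, v (φ β) < v (x i)) →
  ∀ (w : k[X]) (N : ℕ), 1 ≤ N → (∏ i, (X - C (x i))) ∣ w ^ 2 - f.map φ →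
  IsCoprime (∏ i, (X - C (x i))) w →
  (II (f.map φ) (∏ i, (X - C (x i))) w ^ N).IsPrincipal →
  ∃ (a b : k[X]) (c : k), c ≠ 0 ∧ a ^ 2 - f.map φ * b ^ 2 = C c * ∏ i, (X - C (x i))

/-! ## the points -/

def T_PTS : Prop := ∀ (p : ℕ) [Fact p.Prime] (F : Type u) [Field F] [Algebra (ZMod p) F] (e : ℕ)
  (σ : Fin e → (SeparableClosure F ≃ₐ[F] SeparableClosure F)) (f : (KK F σ)[X])
  (T : Finset (KK F σ)) (t : F), p ≠ 2 → Transcendental (ZMod p) t → f.Monic → f.Separable →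
  Odd f.natDegree →
  ∃ (M : Subfield (SeparableClosure F)) (G : Type u) (_ : Group G) (_ : Fintype G)
    (_ : MulSemiringAction G M), FaithfulSMul G M ∧
    (∀ t ∈ T, (t : SeparableClosure F) ∈ M) ∧
    (∀ i, ((f.coeff i : KK F σ) : SeparableClosure F) ∈ M) ∧
    (∃ tM : M, (tM : SeparableClosure F) = algebraMap F (SeparableClosure F) t ∧
      ∀ g : G, g • tM = tM) ∧
    ∀ S : Finset M, ∃ q : M, ∀ s ∈ S, Function.Injective (fun g : G => g • (q + s)) →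
      ∃ (u w : (KK F σ)[X])
        (τ : AlgebraicClosure (SeparableClosure F) ≃+* AlgebraicClosure (SeparableClosure F)),
        u.map (algebraMap (KK F σ) (SeparableClosure F)) =
          ∏ g : G, (X - C ((g • (q + s) : M) : SeparableClosure F)) ∧
        u ∣ w ^ 2 - f ∧ IsCoprime u w ∧
        (∀ x ∈ M, τ (algebraMap (SeparableClosure F) _ x) = algebraMap (SeparableClosure F) _ x) ∧
        (∀ i, τ (algebraMap (SeparableClosure F) _ (u.coeff i : KK F σ)) =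
          algebraMap (SeparableClosure F) _ (u.coeff i : KK F σ)) ∧
        (∀ i, τ (algebraMap (SeparableClosure F) _ (w.coeff i : KK F σ)) =
          - algebraMap (SeparableClosure F) _ (w.coeff i : KK F σ))

/-! ## the final theorem -/

open scoped TensorProduct in
def T_FIN : Prop := ∀ (p : ℕ) [Fact p.Prime] (F : Type u) [Field F] [Algebra (ZMod p) F],
  p ≠ 2 → ¬ Algebra.IsAlgebraic (ZMod p) F → ∀ (e : ℕ)
  (σ : Fin e → (SeparableClosure F ≃ₐ[F] SeparableClosure F)) (f : (KK F σ)[X]),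
  f.Separable → Odd f.natDegree → 3 ≤ f.natDegree →
  ¬ FiniteDimensional ℚ (ℚ ⊗[ℤ] Additive (CommRing.Pic (AdjoinRoot (X ^ 2 - C f))))

end Pool.Agent.H13.HP
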