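import Pool.Agent.H13.HP.FIN
import Pool.Agent.H13.HP.NT
import Pool.Agent.H13.HP.PP
import Pool.Agent.H13.HP.PTS
import Pool.Agent.H59.HP.CART
import Pool.Agent.H59.HP.SQK
import Pool.Agent.H33.HP.CL
import Pool.Agent.H33.HP.TAU
import Pool.Agent.H4.HP.COF
import Pool.Agent.H4.HP.DEG
import Pool.Agent.H3.HP.SEL
import Pool.Agent.H3.HP.VAL
import Pool.Agent.H19.HP.IDL
import Pool.Agent.H19.HP.REL
import Pool.Agent.H19.HP.SML
import Pool.Agent.H69.HP.ADD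
import Pool.Agent.H69.HP.ROOT
import Pool.Agent.H69.HP.SQ
import Pool.Agent.H41.HE.EX
import Pool.Agent.H41.HE.NL
import Pool.Agent.H91.HE.PL
import Pool.Agent.H7.HE.PHI

/-!
# Assembly
-/

namespace Pool.Agent.H13.HP

universe u

theorem main : T_FIN.{u} :=
  fin Pool.Agent.H33.HP.CL.cl
    (nt Pool.Agent.H19.HP.IDL.idl
      (pp Pool.Agent.H19.HP.REL.rel Pool.Agent.H4.HP.DEG.deg Pool.Agent.H19.HP.SML.sml
        (Pool.Agent.H59.HP.cart Pool.Agent.H19.HP.IDL.lift_T) Pool.Agent.H4.HP.COF.cof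
        Pool.Agent.H69.HP.ADD.add Pool.Agent.H69.HP.ROOT.root Pool.Agent.H41.HE.nl)
      (Pool.Agent.H91.HE.PL Pool.Agent.H41.HE.ex Pool.Agent.H41.HE.nl))
    Pool.Agent.H7.HE.PHI Pool.Agent.H3.HP.sel
    (pts (Pool.Agent.H69.HP.SQ.sq Pool.Agent.H59.HP.sqk) Pool.Agent.H33.HP.TAU.tau)
    Pool.Agent.H3.HP.val

end Pool.Agent.H13.HP
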