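import Pool.Agent.H13.HP.Defs
import Pool.Agent.H62.HE.FIN

/-!
# FIN: assembly in odd characteristic
-/

open Polynomial
open scoped TensorProduct

namespace Pool.Agent.H13.HP

open Pool.Agent.H62.HE Pool.Agent.H62.HE.FINm

universe u

/-- the output of the module PTS for a general embedding `φ : K → Ω` -/
def PtsFor {K Ω : Type u} [Field K] [Field Ω] (φ : K →+* Ω) (f : K[X]) (t : Ω) : Prop :=
  ∀ T : Finset K, ∃ (M : Type u) (_ : Field M) (j : M →+* Ω) (G : Type u) (_ : Group G)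
    (_ : Fintype G) (_ : MulSemiringAction G M), FaithfulSMul G M ∧
    (∀ s ∈ T, ∃ x : M, j x = φ s) ∧ (∃ fM : M[X], fM.map j = f.map φ) ∧
    (∃ tM : M, j tM = t ∧ ∀ g : G, g • tM = tM) ∧
    ∀ S : Finset M, ∃ q : M, ∀ s ∈ S, Function.Injective (fun g : G => g • (q + s)) →
      ∃ (u w : K[X]) (τ : Ω ≃+* Ω),
        u.map φ = ∏ g : G, (X - C (j (g • (q + s)))) ∧
        u ∣ w ^ 2 - f ∧ IsCoprime u w ∧ (∀ x : M, τ (j x) = j x) ∧
        (∀ i, τ (φ (u.coeff i)) = φ (u.coeff i)) ∧ (∀ i, τ (φ (w.coeff i)) = - φ (w.coeff i))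

theorem core (hCL : T_CL.{u}) (hNT : T_NT.{u}) (hPHI : T_PHI.{u}) (hSEL : T_SEL.{u})
    (p : ℕ) [Fact p.Prime] (hp : p ≠ 2)
    (K Ω : Type u) [Field K] [Field Ω] [CharP Ω p] [IsAlgClosed Ω] (φ : K →+* Ω)
    (f : K[X]) (hf : f.Monic) (hs : f.Separable) (hodd : Odd f.natDegree) (h3 : 3 ≤ f.natDegree)
    [IsDomain (HR K f)] (V : ValuationSubring Ω) (t : Ω) (ht : 1 < V.valuation t)
    (hPTS : PtsFor φ f t) :
    ¬ FiniteDimensional ℚ (ℚ ⊗[ℤ] Additive (ClassGroup (HR K f))) := by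
  classical
  intro hfin
  have hodd' : Odd (f.map φ).natDegree := by rwa [natDegree_map]
  have : IsDomain (HR Ω (f.map φ)) := isDomain_HR hodd'
  have h2Ω : (2 : Ω) ≠ 0 := by
    intro h
    have h1 : ((2 : ℕ) : Ω) = 0 := by exact_mod_cast h
    rw [CharP.cast_eq_zero_iff Ω p] at h1
    exact hp ((Nat.prime_dvd_prime_iff_eq (Fact.out) Nat.prime_two).1 h1)
  have h2K : (2 : K) ≠ 0 := by
    intro h
    apply h2Ω
    have h1 := congrArg φ h
    rwa [map_ofNat, map_zero] at h1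
  obtain ⟨T, hT⟩ := hCL K Ω φ f h2K hfin
  obtain ⟨M, _, j, G, _, _, _, hfaith, hTM, ⟨fM, hfM⟩, ⟨tM, htM, htG⟩, hpts⟩ := hPTS T
  obtain ⟨g, hg⟩ := hodd
  have hg1 : 1 ≤ g := by omega
  obtain ⟨P0, hP0, hP⟩ := hPHI Ω G g (f.map φ) hg1 (by rw [natDegree_map, hg])
  have hfMm : fM.Monic := by
    refine Polynomial.monic_of_injective j.injective ?_
    rw [hfM]
    exact hf.map φ
  have hfMs : fM.Separable := by
    rw [← Polynomial.separable_map j, hfM]
    exact hs.map
  have hfMd : fM.natDegree = 2 * g + 1 := by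
    rw [← Polynomial.natDegree_map j, hfM, natDegree_map, hg]
  obtain ⟨β, hβ⟩ := hNT p Ω M j V.ValueGroup V.valuation g fM tM (by rw [htM]; exact ht) hp hg1
    hfMm hfMs hfMd
  -- the polynomial to be avoided
  set Q : MvPolynomial G Ω := ∏ p ∈ (Finset.univ : Finset (G × G)).filter (fun p => p.1 ≠ p.2),
    (MvPolynomial.X p.1 - MvPolynomial.X p.2) with hQ
  have hQ0 : Q ≠ 0 := by
    rw [hQ, Finset.prod_ne_zero_iff]
    intro p hp h0
    rw [Finset.mem_filter] at hp
    exact hp.2 (MvPolynomial.X_injective (sub_eq_zero.mp h0))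
  have hPQ : P0 * Q ≠ 0 := mul_ne_zero hP0 hQ0
  obtain ⟨S, hS⟩ := hSEL M Ω G j V.ValueGroup V.valuation (P0 * Q) β tM htG
    (by rw [htM]; exact ht) hPQ
  obtain ⟨q, hq⟩ := hpts S
  obtain ⟨s, hsS, hsP, hsv⟩ := hS q
  rw [map_mul] at hsP
  have hinj : Function.Injective (fun g : G => g • (q + s)) := by
    intro a b hab
    by_contra hne
    apply right_ne_zero_of_mul hsP
    rw [hQ, map_prod]
    refine Finset.prod_eq_zero (i := (a, b)) (Finset.mem_filter.mpr ⟨Finset.mem_univ _, hne⟩) ?_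
    simp only [map_sub, MvPolynomial.eval_X]
    rw [sub_eq_zero]
    exact congrArg j hab
  obtain ⟨u, w, τ, hu, huw, hcop, hτM, hτu, hτw⟩ := hq s hsS hinj
  have hu0 : u ≠ 0 := by
    rintro rfl
    rw [Polynomial.map_zero] at hu
    exact (Finset.prod_ne_zero_iff.mpr fun g _ => X_sub_C_ne_zero _) hu.symm
  obtain ⟨N, hN, hprin⟩ := hT u w hu0 huw hcop τ
    (fun t ht => by
      obtain ⟨x, hx⟩ := hTM t ht
      rw [← hx]
      exact hτM x)
    (fun i => by
      have h1 : φ (f.coeff i) = j (fM.coeff i) := by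
        rw [← coeff_map, ← hfM, coeff_map]
      rw [h1]
      exact hτM _) hτu hτw
  have hdvd : (∏ g : G, (X - C (j (g • (q + s))))) ∣ (w.map φ) ^ 2 - fM.map j := by
    rw [hfM, ← hu, ← Polynomial.map_pow, ← Polynomial.map_sub]
    exact Polynomial.map_dvd φ huw
  have hcop' : IsCoprime (∏ g : G, (X - C (j (g • (q + s))))) (w.map φ) := by
    rw [← hu]
    exact hcop.map (Polynomial.mapRingHom φ)
  rw [hu] at hprin
  have hprin' : ∀ F' : Polynomial Ω, F' = f.map φ →
      (II F' (∏ g : G, (X - C (j (g • (q + s))))) (w.map φ) ^ N).IsPrincipal := by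
    rintro _ rfl
    exact hprin
  obtain ⟨a, b, c, hc, habc⟩ := hβ G (fun g => j (g • (q + s))) hsv (w.map φ) N hN hdvd hcop'
    (hprin' _ hfM)
  rw [hfM] at habc
  exact left_ne_zero_of_mul hsP (hP _ ⟨a, b, c, hc, habc⟩)

theorem nrm_separable {K : Type u} [Field K] {f : K[X]} {g : ℕ} (hf : f.natDegree = 2 * g + 1)
    (hs : f.Separable) : (nrm f g).Separable := by
  have hf0 : f ≠ 0 := by rintro rfl; simp at hf
  have hl : f.leadingCoeff ≠ 0 := leadingCoeff_ne_zero.mpr hf0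
  have hr0 : f.leadingCoeff⁻¹ ≠ 0 := inv_ne_zero hl
  have h1 : (f.comp (C f.leadingCoeff⁻¹ * X)).Separable := by
    have h3 : IsCoprime (f.comp (C f.leadingCoeff⁻¹ * X))
        ((derivative f).comp (C f.leadingCoeff⁻¹ * X)) :=
      (show IsCoprime f (derivative f) from hs).map (compRingHom (C f.leadingCoeff⁻¹ * X))
    rw [Polynomial.Separable, derivative_comp]
    have h4 : derivative (C f.leadingCoeff⁻¹ * X : K[X]) = C f.leadingCoeff⁻¹ := by simp
    rw [h4]
    have h5 : IsUnit (C f.leadingCoeff⁻¹ : K[X]) := isUnit_C.2 (isUnit_iff_ne_zero.2 hr0)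
    exact (isCoprime_mul_unit_left_right h5 _ _).2 h3
  have h6 : IsUnit (C (f.leadingCoeff ^ (2 * g)) : K[X]) :=
    isUnit_C.2 (isUnit_iff_ne_zero.2 (pow_ne_zero _ hl))
  rw [nrm]
  exact h1.of_dvd (h6.mul_left_dvd.2 dvd_rfl)

theorem fin (hCL : T_CL.{u}) (hNT : T_NT.{u}) (hPHI : T_PHI.{u}) (hSEL : T_SEL.{u})
    (hPTS : T_PTS.{u}) (hVAL : T_VAL.{u}) : T_FIN.{u} := by
  classical
  intro p _ F _ _ hp hF e σ f hs hodd h3 hfin
  obtain ⟨t, ht⟩ : ∃ t : F, Transcendental (ZMod p) t := by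
    by_contra hcon
    apply hF
    refine ⟨fun x => ?_⟩
    by_contra hx
    exact hcon ⟨x, hx⟩
  obtain ⟨g, hg⟩ := hodd
  have hdeg := nrm_natDegree hg
  have hmon := nrm_monic hg
  have hsep := nrm_separable hg hs
  have hodd' : Odd (nrm f g).natDegree := ⟨g, hdeg⟩
  have hD : IsDomain (HR (KK F σ) (nrm f g)) := isDomain_HR hodd'
  set Ωs := SeparableClosure F with hΩs
  set Ω := AlgebraicClosure Ωs with hΩ
  set a : KK F σ →+* Ωs := algebraMap (KK F σ) Ωs with ha
  set j : Ωs →+* Ω := algebraMap Ωs Ω with hj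
  set i0 : F →+* Ω := j.comp (algebraMap F Ωs) with hi0
  have hcF : CharP F p := charP_of_injective_algebraMap (algebraMap (ZMod p) F).injective p
  have hcΩ : CharP Ω p := (i0.charP_iff i0.injective p).1 hcF
  let _ : Algebra (ZMod p) Ω := ZMod.algebra Ω p
  have htΩ : Transcendental (ZMod p) (i0 t) := by
    rintro ⟨P, hP0, hP⟩
    apply ht
    refine ⟨P, hP0, ?_⟩
    apply i0.injective
    rw [map_zero, aeval_def, Polynomial.hom_eval₂]
    have h2 : i0.comp (algebraMap (ZMod p) F) = algebraMap (ZMod p) Ω := Subsingleton.elim _ _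
    rw [h2]
    exact hP
  obtain ⟨V, hV⟩ := hVAL p Ω (i0 t) htΩ
  have hP : PtsFor (j.comp a) (nrm f g) (i0 t) := by
    intro T
    obtain ⟨M, G, i1, i2, i3, hfaith, hTM, hfM, ⟨tM, htM, htG⟩, hpts⟩ :=
      hPTS p F e σ (nrm f g) T t hp ht hmon hsep hodd'
    refine ⟨M, inferInstance, j.comp M.subtype, G, i1, i2, i3, hfaith, ?_, ?_, ?_, ?_⟩
    · intro s hs
      exact ⟨⟨(s : Ωs), hTM s hs⟩, rfl⟩
    · have h1 : (nrm f g).map a ∈ Polynomial.lifts M.subtype := by
        rw [Polynomial.lifts_iff_coeff_lifts]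
        intro n
        rw [coeff_map]
        exact ⟨⟨_, hfM n⟩, rfl⟩
      rw [Polynomial.mem_lifts] at h1
      obtain ⟨q, hq⟩ := h1
      refine ⟨q, ?_⟩
      rw [← Polynomial.map_map, hq, Polynomial.map_map]
    · refine ⟨tM, ?_, htG⟩
      change j (tM : Ωs) = _
      rw [htM]
      rfl
    · intro S
      obtain ⟨q, hq⟩ := hpts S
      refine ⟨q, fun s hs hinj => ?_⟩
      obtain ⟨u, w, τ, h1, h2, h3, h4, h5, h6⟩ := hq s hs hinj
      refine ⟨u, w, τ, ?_, h2, h3, fun x => h4 x x.2, h5, h6⟩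
      rw [← Polynomial.map_map, h1, Polynomial.map_prod]
      refine Finset.prod_congr rfl fun x _ => ?_
      rw [Polynomial.map_sub, Polynomial.map_X, Polynomial.map_C]
      rfl
  refine core hCL hNT hPHI hSEL p hp (KK F σ) Ω
    (j.comp a) (nrm f g) hmon hsep hodd' (by omega) V (i0 t) hV hP ?_
  have e1 : CommRing.Pic (AdjoinRoot (X ^ 2 - C f)) ≃* CommRing.Pic (HR (KK F σ) (nrm f g)) := by
    let φ := RingEquiv.ofBijective (fwd hg) (fwd_bijective hg)
    refine
      { toFun := CommRing.Pic.mapRingHom φ.toRingHom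
        invFun := CommRing.Pic.mapRingHom φ.symm.toRingHom
        left_inv := ?_
        right_inv := ?_
        map_mul' := fun _ _ => map_mul _ _ _ }
    · intro x
      rw [CommRing.Pic.mapRingHom_mapRingHom]
      have : φ.symm.toRingHom.comp φ.toRingHom = RingHom.id _ := by ext <;> simp
      rw [this, CommRing.Pic.mapRingHom_id_apply]
    · intro x
      rw [CommRing.Pic.mapRingHom_mapRingHom]
      have : φ.toRingHom.comp φ.symm.toRingHom = RingHom.id _ := by
        apply RingHom.ext; intro x; simp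
      rw [this, CommRing.Pic.mapRingHom_id_apply]
  exact finDim_iff (e1.trans (ClassGroup.equivPic _).symm) hfin

end Pool.Agent.H13.HP
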