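import Mathlib
import Pool.Agent.H23.HJ

/-!
# The multiplicative consequence of the Hales-Jewett theorem over any infinite field
-/

namespace Pool.Agent.H13.HP

open Pool.Agent.H23

/-- elements of an infinite field without vanishing subsums -/
theorem exists_no_zero_sum (L : Type*) [Field L] [Infinite L] (ι : Type*) [Fintype ι] :
    ∃ c : ι → L, ∀ D : Finset ι, D.Nonempty → ∑ i ∈ D, c i ≠ 0 := by
  classical
  set P : MvPolynomial ι L :=
    ∏ D ∈ (Finset.univ : Finset (Finset ι)).filter (fun D => D.Nonempty),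
      ∑ i ∈ D, MvPolynomial.X i with hP
  have hP0 : P ≠ 0 := by
    rw [hP, Finset.prod_ne_zero_iff]
    intro D hD h0
    obtain ⟨i, hi⟩ := (Finset.mem_filter.mp hD).2
    have h1 := congrArg (MvPolynomial.eval (Pi.single i (1 : L))) h0
    rw [map_sum, map_zero] at h1
    simp only [MvPolynomial.eval_X] at h1
    rw [Finset.sum_eq_single_of_mem i hi (fun j _ hj => by simp [hj])] at h1
    simp at h1
  have hex : ∃ c : ι → L, MvPolynomial.eval c P ≠ 0 := by
    by_contra hcon
    push Not at hcon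
    exact hP0 (MvPolynomial.funext fun x => by rw [hcon x, map_zero])
  obtain ⟨c, hc⟩ := hex
  refine ⟨c, fun D hD h0 => hc ?_⟩
  rw [hP, map_prod]
  refine Finset.prod_eq_zero (i := D) (Finset.mem_filter.mpr ⟨Finset.mem_univ _, hD⟩) ?_
  rw [map_sum]
  simpa using h0

variable {L : Type*} [Field L] {G : Type*} [CommGroup G]

/-- monochromatic homothetic copies with invertible ratio -/
theorem exists_mono [Infinite L] {κ : Type*} [Finite κ] (S : Finset L) (C : L → κ) :
    ∃ a : L, a ≠ 0 ∧ ∃ (b : L) (c : κ), ∀ s ∈ S, C (a * s + b) = c := by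
  classical
  obtain ⟨ι, _inst, hι⟩ := Combinatorics.Line.exists_mono_in_high_dimension S κ
  obtain ⟨lam, hlam⟩ := exists_no_zero_sum L ι
  specialize hι fun v => C <| ∑ i, lam i * (v i : L)
  obtain ⟨l, c, hl⟩ := hι
  set D : Finset ι := Finset.univ.filter (fun i => l.idxFun i = none) with hD
  have hDne : D.Nonempty := by
    obtain ⟨i, hi⟩ := l.proper
    exact ⟨i, by simp [hD, hi]⟩
  refine ⟨∑ i ∈ D, lam i, hlam D hDne,
    ∑ i ∈ Dᶜ, lam i * (((l.idxFun i).map (fun x : S => (x : L))).getD 0), c, ?_⟩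
  intro s hs
  rw [← hl ⟨s, hs⟩]
  congr 1
  rw [← Finset.sum_add_sum_compl D]
  congr 1
  · rw [Finset.sum_mul]
    refine Finset.sum_congr rfl fun i hi => ?_
    have hi' : l.idxFun i = none := (Finset.mem_filter.mp hi).2
    rw [Combinatorics.Line.apply_none _ _ _ hi']
  · refine Finset.sum_congr rfl fun i hi => ?_
    have hi' : l.idxFun i ≠ none := by
      intro h
      rw [Finset.mem_compl] at hi
      exact hi (Finset.mem_filter.mpr ⟨Finset.mem_univ _, h⟩)
    obtain ⟨y, hy⟩ := Option.ne_none_iff_exists.mp hi'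
    rw [Combinatorics.Line.apply_some hy.symm, ← hy]
    simp

theorem Ach_nonempty [Infinite L] [Finite G] (χ : Lˣ →* G) (S : Finset L) :
    (Ach χ S).Nonempty := by
  classical
  let C : L → Option G := fun x => if h : x = 0 then none else some (χ (Units.mk0 x h))
  obtain ⟨a, ha0, b, c, hc⟩ := exists_mono (insert 0 (insert 1 S)) C
  have h0 := hc 0 (by simp)
  have h1 := hc 1 (by simp)
  cases c with
  | none =>
    exfalso
    have h0' : a * (0 : L) + b = 0 := by
      by_contra hne
      simp only [C, dif_neg hne] at h0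
      exact absurd h0 (by simp)
    have h1' : a * (1 : L) + b = 0 := by
      by_contra hne
      simp only [C, dif_neg hne] at h1
      exact absurd h1 (by simp)
    have hb : b = 0 := by simpa using h0'
    rw [hb] at h1'
    simp only [mul_one, add_zero] at h1'
    exact ha0 h1'
  | some g0 =>
    refine ⟨g0 * (χ (Units.mk0 a ha0))⁻¹, b / a, fun s hs => ?_⟩
    have h := hc s (by simp [hs])
    have hne : a * s + b ≠ 0 := by
      intro h0
      simp only [C, dif_pos h0] at h
      exact absurd h (by simp)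
    refine ⟨Units.mk0 _ hne * (Units.mk0 a ha0)⁻¹, ?_, ?_⟩
    · simp only [Units.val_mul, Units.val_mk0, Units.val_inv_eq_inv_val]
      field_simp
      ring
    · simp only [C, dif_neg hne, Option.some.injEq] at h
      rw [map_mul, map_inv, h]

/-- The key combinatorial statement. -/
theorem exists_translate [Infinite L] [Finite G] (χ : Lˣ →* G) (S : Finset L) (g₁ : Lˣ) :
    ∃ q : L, ∀ s ∈ S, ∃ u : Lˣ, (u : L) = q + s ∧ χ u = χ g₁ := by
  classical
  -- choose `S₀` with minimal number of attained classes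
  have hex : ∃ n : ℕ, ∃ S₀ : Finset L, (Ach χ S₀).ncard = n := ⟨_, ∅, rfl⟩
  obtain ⟨S₀, hS₀⟩ := Nat.find_spec hex
  have hmin : ∀ T : Finset L, (Ach χ S₀).ncard ≤ (Ach χ T).ncard := by
    intro T
    rw [hS₀]
    exact Nat.find_min' hex ⟨T, rfl⟩
  have hsub : ∀ T : Finset L, Ach χ S₀ ⊆ Ach χ T := by
    intro T
    have h1 : Ach χ (S₀ ∪ T) ⊆ Ach χ S₀ := Ach_mono χ Finset.subset_union_left
    have h2 : Ach χ (S₀ ∪ T) = Ach χ S₀ :=
      Set.eq_of_subset_of_ncard_le h1 (hmin _) (Set.toFinite _)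
    rw [← h2]
    exact Ach_mono χ Finset.subset_union_right
  obtain ⟨g0, hg0⟩ := Ach_nonempty χ S₀
  obtain ⟨q0, hq0⟩ := hsub {0} hg0
  obtain ⟨w, -, hw⟩ := hq0 0 (by simp)
  -- scaling factor
  set l : Lˣ := g₁ * w⁻¹ with hl
  obtain ⟨q, hq⟩ := hsub (S.image fun t => ((l⁻¹ : Lˣ) : L) * t) hg0
  refine ⟨l * q, fun s hs => ?_⟩
  obtain ⟨u, hu, hχ⟩ := hq (((l⁻¹ : Lˣ) : L) * s) (Finset.mem_image_of_mem _ hs)
  refine ⟨l * u, ?_, ?_⟩
  · rw [Units.val_mul, hu, mul_add, ← mul_assoc, Units.mul_inv, one_mul]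
  · rw [map_mul, hχ, hl, map_mul, map_inv, hw, inv_mul_cancel_right]

end Pool.Agent.H13.HP
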