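import Pool.Agent.H13.HP.Defs
import Pool.Agent.H13.HP.HJ
import Pool.Agent.H62.HE.PTSc

/-!
# PTS in odd characteristic, part a: the fields and the interpolation
-/

open Polynomial

namespace Pool.Agent.H13.HP

open Pool.Agent.H62.HE Pool.Agent.H62.HE.PTSm

universe u

namespace PTSp

/-- all the data -/
lemma exists_fields {F Ω : Type u} [Field F] [Field Ω] [Algebra F Ω] [IsSepClosed Ω]
    (h2 : (2 : Ω) ≠ 0) (Γ : Subgroup (Ω ≃ₐ[F] Ω)) (hΓ : Γ.FG) (A : Finset Ω)
    (hA : ∀ γ ∈ Γ, ∀ a ∈ A, γ a ∈ A) :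
    ∃ (M : Subfield Ω) (hM : ∀ γ ∈ Γ, ∀ x ∈ M, γ x ∈ M) (L : IntermediateField F Ω),
      (∀ a ∈ A, a ∈ M) ∧ Finite (GG Γ M hM) ∧ (∃ B : Finset M, Subfield.closure (B : Set M) = ⊤) ∧
      (∀ x ∈ M, x ∈ L) ∧ (∀ x ∈ L, ∀ γ : Γ, res Γ M hM γ = 1 → (γ : Ω ≃ₐ[F] Ω) x = x) ∧
      Finite (Lˣ ⧸ (powMonoidHom 2 : Lˣ →* Lˣ).range) := by
  classical
  refine ⟨Subfield.closure (A : Set Ω), stable Γ A hA,
    IntermediateField.fixedField (ker0 Γ _ (stable Γ A hA)),
    fun a ha => Subfield.subset_closure ha, finite_GG Γ A hA, ?_, ?_, ?_, ?_⟩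
  · refine ⟨A.attach.image fun a => ⟨a.1, Subfield.subset_closure a.2⟩, ?_⟩
    have h1 : ((Subfield.closure (A : Set Ω)).subtype '' ((A.attach.image fun a =>
        (⟨a.1, Subfield.subset_closure a.2⟩ : Subfield.closure (A : Set Ω)) :
        Finset (Subfield.closure (A : Set Ω))) : Set (Subfield.closure (A : Set Ω)))) = (A : Set Ω) := by
      ext x
      constructor
      · rintro ⟨y, hy, rfl⟩
        rw [Finset.mem_coe, Finset.mem_image] at hy
        obtain ⟨a, -, rfl⟩ := hy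
        exact a.2
      · intro hx
        refine ⟨⟨x, Subfield.subset_closure hx⟩, ?_, rfl⟩
        rw [Finset.mem_coe, Finset.mem_image]
        exact ⟨⟨x, hx⟩, Finset.mem_attach _ _, rfl⟩
    rw [eq_top_iff]
    intro x _
    have h3 : (x : Ω) ∈ (Subfield.closure ((A.attach.image fun a =>
        (⟨a.1, Subfield.subset_closure a.2⟩ : Subfield.closure (A : Set Ω)) :
        Finset (Subfield.closure (A : Set Ω))) : Set (Subfield.closure (A : Set Ω)))).map
        (Subfield.closure (A : Set Ω)).subtype := by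
      rw [RingHom.map_field_closure, h1]
      exact x.2
    obtain ⟨y, hy, hyx⟩ := h3
    have : y = x := Subtype.ext hyx
    rw [← this]
    exact hy
  · intro x hx
    rw [IntermediateField.mem_fixedField_iff]
    intro γ hγ
    obtain ⟨h, h1⟩ := (mem_ker0 Γ).1 hγ
    have h2 := congrArg (fun g : RingAut _ => ((g ⟨x, hx⟩ : Subfield.closure (A : Set Ω)) : Ω)) h1
    exact h2
  · intro x hx γ hγ
    rw [IntermediateField.mem_fixedField_iff] at hx
    exact hx γ ((mem_ker0 Γ).2 ⟨γ.2, hγ⟩)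
  · obtain ⟨n, s, hs⟩ := fg_eq_closure (ker0_fg Γ hΓ _ (stable Γ A hA) (finite_GG Γ A hA))
    rw [hs]
    have : NeZero ((2 : ℕ) : Ω) := ⟨by exact_mod_cast h2⟩
    exact Pool.Agent.H23.finite_powerClasses s 2

section Interp

variable {F Ω Ωa : Type u} [Field F] [Field Ω] [Field Ωa] [Algebra F Ω]
  (Γ : Subgroup (Ω ≃ₐ[F] Ω))

variable (M : Subfield Ω) (hM : ∀ γ ∈ Γ, ∀ x ∈ M, γ x ∈ M)

lemma interp [Fintype (GG Γ M hM)] (f : (IntermediateField.fixedField Γ)[X]) (x0 : M) (y0 : Ω)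
    (hy0 : ∀ γ : Γ, res Γ M hM γ = 1 → (γ : Ω ≃ₐ[F] Ω) y0 = y0)
    (hsq : y0 ^ 2 = (f.map (algebraMap (IntermediateField.fixedField Γ) Ω)).eval (x0 : Ω))
    (hne : y0 ≠ 0) (hinj : Function.Injective (fun g : GG Γ M hM => g • x0))
    (j : Ω →+* Ωa) (τ : Ωa ≃+* Ωa) (hτM : ∀ x ∈ M, τ (j x) = j x)
    (hτy : ∀ γ : Γ, τ (j ((γ : Ω ≃ₐ[F] Ω) y0)) = - j ((γ : Ω ≃ₐ[F] Ω) y0)) :
    ∃ u w : (IntermediateField.fixedField Γ)[X],
      u.map (algebraMap (IntermediateField.fixedField Γ) Ω) =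
        ∏ g : GG Γ M hM, (X - C ((g • x0 : M) : Ω)) ∧
      u ∣ w ^ 2 - f ∧ IsCoprime u w ∧
      (∀ i, τ (j (u.coeff i : IntermediateField.fixedField Γ)) =
        j (u.coeff i : IntermediateField.fixedField Γ)) ∧
      (∀ i, τ (j (w.coeff i : IntermediateField.fixedField Γ)) =
        - j ((w.coeff i : IntermediateField.fixedField Γ) : Ω)) := by
  classical
  set φ := algebraMap (IntermediateField.fixedField Γ) Ω with hφ
  have hfix : ∀ γ ∈ Γ, ∀ x : IntermediateField.fixedField Γ, γ (x : Ω) = x := by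
    intro γ hγ x
    exact (IntermediateField.mem_fixedField_iff _ _).1 x.2 γ hγ
  have hfmap : ∀ γ ∈ Γ, (f.map φ).map (γ : Ω →+* Ω) = f.map φ := by
    intro γ hγ
    rw [Polynomial.map_map]
    congr 1
    ext x
    exact hfix γ hγ x
  -- the values
  choose c hc using fun g : GG Γ M hM => g.2
  set v : GG Γ M hM → Ω := fun g => ((g • x0 : M) : Ω) with hv
  set y : GG Γ M hM → Ω := fun g => ((c g : Γ) : Ω ≃ₐ[F] Ω) y0 with hy
  have hvc : ∀ g, v g = ((c g : Γ) : Ω ≃ₐ[F] Ω) x0 := fun g => smul_coe Γ M hM g (c g) (hc g) x0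
  have hvinj : Function.Injective v := fun a b hab => hinj (Subtype.ext hab)
  let bar : Γ → GG Γ M hM := fun γ => ⟨res Γ M hM γ, γ, rfl⟩
  have hyγ : ∀ (γ : Γ) (g : GG Γ M hM), res Γ M hM γ = g → (γ : Ω ≃ₐ[F] Ω) y0 = y g := by
    intro γ g hg
    have h1 : res Γ M hM ((c g)⁻¹ * γ) = 1 := by
      rw [map_mul, map_inv, hc, hg, inv_mul_cancel]
    have h2 := hy0 _ h1
    have h3 : ((c g : Γ) : Ω ≃ₐ[F] Ω) ((((c g)⁻¹ * γ : Γ) : Ω ≃ₐ[F] Ω) y0) = (γ : Ω ≃ₐ[F] Ω) y0 := by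
      rw [← AlgEquiv.mul_apply, ← Subgroup.coe_mul, mul_inv_cancel_left]
    rw [← h3, h2]
  have hγy : ∀ (γ : Γ) (g : GG Γ M hM), (γ : Ω ≃ₐ[F] Ω) (y g) = y (bar γ * g) := by
    intro γ g
    rw [← hyγ (γ * c g) (bar γ * g) (by rw [map_mul, hc]; rfl)]
    rfl
  have hγv : ∀ (γ : Γ) (g : GG Γ M hM), (γ : Ω ≃ₐ[F] Ω) (v g) = v (bar γ * g) := by
    intro γ g
    have h1 : v (bar γ * g) = ((γ * c g : Γ) : Ω ≃ₐ[F] Ω) x0 :=
      smul_coe Γ M hM (bar γ * g) (γ * c g) (by rw [map_mul, hc]; rfl) x0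
    rw [h1, hvc]
    rfl
  have hy2 : ∀ g, (y g) ^ 2 = (f.map φ).eval (v g) := by
    intro g
    have h1 : (y g) ^ 2 = ((c g : Γ) : Ω ≃ₐ[F] Ω) (y0 ^ 2) := (map_pow _ _ _).symm
    rw [h1, hsq, hvc]
    have h2 := Polynomial.eval_map_apply (((c g : Γ) : Ω ≃ₐ[F] Ω) : Ω →+* Ω) (p := f.map φ) (x0 : Ω)
    rw [hfmap _ (c g).2] at h2
    exact h2.symm
  have hyne : ∀ g, y g ≠ 0 := by
    intro g h
    exact hne (((c g : Γ) : Ω ≃ₐ[F] Ω).injective (by rw [map_zero]; exact h))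
  have hτv : ∀ g, τ (j (v g)) = j (v g) := fun g => hτM _ (g • x0 : M).2
  have hτy' : ∀ g, τ (j (y g)) = - j (y g) := fun g => hτy (c g)
  -- the polynomials
  set U : Polynomial Ω := ∏ g : GG Γ M hM, (X - C (v g)) with hU
  set W : Polynomial Ω := Lagrange.interpolate Finset.univ v y with hW
  have hinjOn : Set.InjOn v ((Finset.univ : Finset (GG Γ M hM)) : Set (GG Γ M hM)) :=
    fun a _ b _ h => hvinj h
  have hWdeg : W.degree < (Finset.univ : Finset (GG Γ M hM)).card :=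
    Lagrange.degree_interpolate_lt _ hinjOn
  have hWev : ∀ g, W.eval (v g) = y g := fun g =>
    Lagrange.eval_interpolate_at_node _ hinjOn (Finset.mem_univ g)
  have hUγ : ∀ γ ∈ Γ, U.map (γ : Ω →+* Ω) = U := by
    intro γ hγ
    rw [hU, Polynomial.map_prod]
    rw [← Equiv.prod_comp (Equiv.mulLeft (bar ⟨γ, hγ⟩)) (fun g => X - C (v g))]
    refine Finset.prod_congr rfl fun g _ => ?_
    rw [Polynomial.map_sub, Polynomial.map_X, Polynomial.map_C]
    have := hγv ⟨γ, hγ⟩ g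
    simp only [Equiv.coe_mulLeft]
    rw [← this]
    rfl
  have hWγ : ∀ γ ∈ Γ, W.map (γ : Ω →+* Ω) = W := by
    intro γ hγ
    refine Lagrange.eq_interpolate_of_eval_eq _ hinjOn
      (lt_of_le_of_lt (Polynomial.degree_map_le) hWdeg) ?_
    intro g _
    have h1 : v g = γ (v ((bar ⟨γ, hγ⟩)⁻¹ * g)) := by
      have := hγv ⟨γ, hγ⟩ ((bar ⟨γ, hγ⟩)⁻¹ * g)
      rw [mul_inv_cancel_left] at this
      exact this.symm
    have h2 : y g = γ (y ((bar ⟨γ, hγ⟩)⁻¹ * g)) := by
      have := hγy ⟨γ, hγ⟩ ((bar ⟨γ, hγ⟩)⁻¹ * g)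
      rw [mul_inv_cancel_left] at this
      exact this.symm
    rw [h1, h2, ← hWev]
    exact Polynomial.eval_map_apply (γ : Ω →+* Ω) _
  obtain ⟨u, hu⟩ := exists_descent Γ U hUγ
  obtain ⟨w, hw⟩ := exists_descent Γ W hWγ
  refine ⟨u, w, hu, ?_, ?_, ?_, ?_⟩
  · rw [← Polynomial.map_dvd_map' φ, Polynomial.map_sub, Polynomial.map_pow, hu, hw, hU]
    refine Finset.prod_dvd_of_coprime ?_ ?_
    · intro a _ b _ hab
      exact Polynomial.pairwise_coprime_X_sub_C hvinj hab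
    · intro g _
      rw [Polynomial.dvd_iff_isRoot, Polynomial.IsRoot.def, Polynomial.eval_sub,
        Polynomial.eval_pow, hWev, hy2, sub_self]
  · rw [← Polynomial.isCoprime_map φ, hu, hw, hU]
    refine IsCoprime.prod_left fun g _ => ?_
    rw [(Polynomial.irreducible_X_sub_C (v g)).coprime_iff_not_dvd, Polynomial.dvd_iff_isRoot,
      Polynomial.IsRoot.def, hWev]
    exact hyne g
  · intro i
    have h1 : ((u.coeff i : IntermediateField.fixedField Γ) : Ω) = U.coeff i := by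
      rw [← hu, coeff_map]; rfl
    rw [h1]
    have h2 : (U.map j).map (τ : Ωa →+* Ωa) = U.map j := by
      rw [hU, Polynomial.map_prod, Polynomial.map_prod]
      refine Finset.prod_congr rfl fun g _ => ?_
      rw [Polynomial.map_sub, Polynomial.map_X, Polynomial.map_C, Polynomial.map_sub,
        Polynomial.map_X, Polynomial.map_C]
      have := hτv g
      congr 2
    have h3 := congrArg (fun r => r.coeff i) h2
    simpa [coeff_map] using h3
  · intro i
    have h1 : ((w.coeff i : IntermediateField.fixedField Γ) : Ω) = W.coeff i := by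
      rw [← hw, coeff_map]; rfl
    rw [h1]
    have hjinj : Set.InjOn (fun g => j (v g))
        ((Finset.univ : Finset (GG Γ M hM)) : Set (GG Γ M hM)) :=
      fun a _ b _ h => hvinj (j.injective h)
    have hWj : W.map j = Lagrange.interpolate Finset.univ (fun g => j (v g)) (fun g => j (y g)) := by
      refine Lagrange.eq_interpolate_of_eval_eq _ hjinj
        (lt_of_le_of_lt (Polynomial.degree_map_le) hWdeg) ?_
      intro g _
      rw [← hWev]
      exact Polynomial.eval_map_apply j _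
    have h2 : - ((W.map j).map (τ : Ωa →+* Ωa)) = W.map j := by
      rw [hWj]
      refine Lagrange.eq_interpolate_of_eval_eq _ hjinj ?_ ?_
      · rw [degree_neg]
        exact lt_of_le_of_lt (Polynomial.degree_map_le) (Lagrange.degree_interpolate_lt _ hjinj)
      · intro g _
        rw [eval_neg]
        have h3 : j (v g) = τ (j (v g)) := (hτv g).symm
        have h4 : eval (j (v g)) ((Lagrange.interpolate Finset.univ (fun g => j (v g))
            (fun g => j (y g))).map (τ : Ωa →+* Ωa)) = τ (j (y g)) := by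
          conv_lhs => rw [h3]
          rw [← Lagrange.eval_interpolate_at_node (fun g => j (y g)) hjinj (Finset.mem_univ g)]
          exact Polynomial.eval_map_apply (τ : Ωa →+* Ωa) _
        rw [h4, hτy', neg_neg]
    have h3 := congrArg (fun r => r.coeff i) h2
    simp only [coeff_neg, coeff_map] at h3
    have h4 : τ (j (W.coeff i)) = - (-(τ : Ωa →+* Ωa) (j (W.coeff i))) := by
      rw [neg_neg]; rfl
    rw [h4, h3]

end Interp

end PTSp

end Pool.Agent.H13.HP
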